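import Pool.Agent.L7h94.MWG.Defs
import Pool.Agent.L7h94.MWC.Pos

/-!
# Cohomology generated by induced classes: proofs
-/

set_option autoImplicit false

open Module TensorProduct

universe u v w

namespace Pool.Agent.L7h94.MWG

open Pool.Agent.H914 Pool.Agent.Y143 Pool.Agent.Y163.MW Pool.Agent.Y136.UB

section

variable {Ω : Type w} [Field Ω] [CharZero Ω] {R R' : Coh.{v, w} Ω} {q : ℕ}

/-- An element of a sum of subspaces of an independent family which lies in one member. -/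
lemma mem_of_indep {J : Type*} {V : Type v} [AddCommGroup V] [Module Ω V]
    {E A : J → Submodule Ω V} (hE : iSupIndep E) (hA : ∀ p, A p ≤ E p) {p : J} {x : V}
    (hx : x ∈ E p) (hxA : x ∈ ⨆ p, A p) : x ∈ A p := by
  classical
  obtain ⟨f, hf, hfx⟩ := (Submodule.mem_iSup_iff_exists_finsupp _ _).1 hxA
  rw [iSupIndep_iff_finsetSum_eq_zero_imp_eq_zero] at hE
  have h1 : ∑ i ∈ insert p f.support, (f i - if i = p then x else 0) = 0 := by
    rw [Finset.sum_sub_distrib, Finset.sum_ite_eq' (insert p f.support) p (fun _ => x),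
      if_pos (Finset.mem_insert_self p _), ← hfx, Finsupp.sum, sub_eq_zero]
    symm
    refine Finset.sum_subset (Finset.subset_insert _ _) fun i _ hi => ?_
    exact Finsupp.notMem_support_iff.1 hi
  have h2 := hE (insert p f.support) _ ?_ h1 p (Finset.mem_insert_self p _)
  · rw [if_pos rfl, sub_eq_zero] at h2
    rw [← h2]
    exact hf p
  · intro i _
    refine Submodule.sub_mem _ (hA i (hf i)) ?_
    split_ifs with hi
    · rw [hi]
      exact hx
    · exact Submodule.zero_mem _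

/-- The decomposition of a stable subspace by weights. -/
lemma iSup_exc_inf [IsAlgClosed Ω] (hR : R.IsCoh q) {m : ℕ} {S : Submodule Ω R.V} (hS : S ≤ R.gr m) (hF : ∀ x ∈ S, R.F x ∈ S) :
    ⨆ c, R.exc q m c ⊓ S = S := by
  have := hR.finite
  have h1 : S = ⨆ α, S ⊓ R.F.maxGenEigenspace α :=
    Submodule.eq_iSup_inf_genEigenspace ⊤ hF (Module.End.iSup_maxGenEigenspace_eq_top R.F)
  apply le_antisymm
  · exact iSup_le fun c => inf_le_right
  · have h2 : ∀ α, S ⊓ R.F.maxGenEigenspace α ≤ ⨆ c, R.exc q m c ⊓ S := by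
      intro α
      by_cases h : ∃ w : ℤ, IsWeilNumber q w α
      · obtain ⟨w, hw⟩ := h
        refine le_iSup_of_le (w - m) (le_inf ?_ inf_le_left)
        refine le_iSup₂_of_le α ?_ (inf_le_inf_right _ hS)
        rwa [show (m : ℤ) + (w - m) = w by ring]
      · have h3 := Coh.pc_eq_bot (m := m) hR h
        have h4 : S ⊓ R.F.maxGenEigenspace α ≤ R.pc (m, α) := inf_le_inf_right _ hS
        rw [h3] at h4
        exact h4.trans bot_le
    calc S = ⨆ α, S ⊓ R.F.maxGenEigenspace α := h1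
      _ ≤ _ := iSup_le h2

/-- mw purity of a stable subspace means that its weight decomposition is centred. -/
lemma pureOn_iff [IsAlgClosed Ω] (hq : 1 < q) (hR : R.IsCoh q) {m : ℕ} {S : Submodule Ω R.V} (hS : S ≤ R.gr m)
    (hF : ∀ x ∈ S, R.F x ∈ S) (hN : ∀ x ∈ S, R.N x ∈ S) :
    PureOn R q m S ↔ Centred (fun c => R.exc q m c ⊓ S) R.N := by
  have := hR.finite
  exact Pool.Agent.Y48.MW.t_G Ω R.V S (fun c => R.exc q m c ⊓ S) R.F R.N (q : Ω)
    (fun c α => IsWeilNumber q (m + c) α) (iSup_exc_inf hR hS hF)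
    ((Coh.indep_exc_deg hq hR m).mono fun c => inf_le_left)
    (fun c x hx => ⟨Coh.F_exc hR m c x hx.1, hF x hx.2⟩)
    (fun c x hx => ⟨Coh.N_exc hq hR m c x hx.1, hN x hx.2⟩)
    (Nat.cast_ne_zero.2 (by omega)) (fun x _ => hR.N_F x)
    (fun c α x hx h0 hF => Coh.eigen_exc hq hR hx.1 h0 hF)
    (fun c c' α h h' => by have := weil_unique hq h h'; omega)

/-- Equivariant maps respect the weights. -/
lemma exc_image [IsAlgClosed Ω] (hq : 1 < q) (hR : R.IsCoh q) {c : ℤ} {j n : ℕ}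
    {S : Submodule Ω R.V} (hS : S ≤ R.gr j) (hF : ∀ x ∈ S, R.F x ∈ S) {φ : R.V →ₗ[Ω] R'.V}
    (hφ : IsEquivariant R R' q c j n S φ) {a : ℤ} {x : R.V} (hx : x ∈ R.exc q j a ⊓ S) :
    φ x ∈ R'.exc q n a := by
  have := hR.finite
  have hx1 : x ∈ ⨆ (α : Ω) (_ : IsWeilNumber q (j + a) α), S ⊓ R.F.maxGenEigenspace α := by
    refine mem_of_indep (E := fun c => R.exc q j c)
      (A := fun c : ℤ => ⨆ (α : Ω) (_ : IsWeilNumber q (j + c) α), S ⊓ R.F.maxGenEigenspace α)
      (Coh.indep_exc_deg hq hR j) (fun c => iSup₂_mono fun α _ => inf_le_inf_right _ hS)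
      (Submodule.mem_inf.1 hx).1 ?_
    have h1 : S = ⨆ α, S ⊓ R.F.maxGenEigenspace α :=
      Submodule.eq_iSup_inf_genEigenspace ⊤ hF (Module.End.iSup_maxGenEigenspace_eq_top R.F)
    have h2 : (⨆ α, S ⊓ R.F.maxGenEigenspace α) ≤
        ⨆ c : ℤ, ⨆ (α : Ω) (_ : IsWeilNumber q (j + c) α), S ⊓ R.F.maxGenEigenspace α := by
      refine iSup_le fun α => ?_
      by_cases h : ∃ w : ℤ, IsWeilNumber q w α
      · obtain ⟨w, hw⟩ := h
        refine le_iSup_of_le (w - j) (le_iSup₂_of_le α ?_ le_rfl)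
        rwa [show (j : ℤ) + (w - j) = w by ring]
      · have h3 := Coh.pc_eq_bot (m := j) hR h
        have h4 : S ⊓ R.F.maxGenEigenspace α ≤ R.pc (j, α) := inf_le_inf_right _ hS
        rw [h3] at h4
        exact h4.trans bot_le
    exact h2 (h1 ▸ (Submodule.mem_inf.1 hx).2)
  have h : (⨆ (α : Ω) (_ : IsWeilNumber q (j + a) α), S ⊓ R.F.maxGenEigenspace α) ≤
      (R'.exc q n a).comap φ := by
    refine iSup₂_le fun α hα y hy => ?_
    obtain ⟨hy1, hy2⟩ := Submodule.mem_inf.1 hy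
    have h3 := hα.twist (by omega : q ≠ 0) c
    rw [show (j : ℤ) + a + 2 * c = n + a by rw [hφ.degree]; ring] at h3
    refine Submodule.mem_iSup_of_mem _ (Submodule.mem_iSup_of_mem h3 ?_)
    refine Submodule.mem_inf.2 ⟨hφ.gr y hy1, ?_⟩
    obtain ⟨k, hk⟩ := mem_gen.1 hy2
    refine mem_gen.2 ⟨k, ?_⟩
    have key : ∀ (k : ℕ) (y : R.V), y ∈ S →
        ((R'.F - algebraMap Ω (Module.End Ω R'.V) ((q : Ω) ^ c * α)) ^ k) (φ y) =
          ((q : Ω) ^ c) ^ k • φ (((R.F - algebraMap Ω (Module.End Ω R.V) α) ^ k) y) := by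
      intro k
      induction k with
      | zero => intro y _; simp
      | succ k ih =>
        intro y hy
        have h4 : (R.F - algebraMap Ω (Module.End Ω R.V) α) y ∈ S := by
          rw [LinearMap.sub_apply, Module.algebraMap_end_apply]
          exact S.sub_mem (hF y hy) (S.smul_mem _ hy)
        have h5 : (R'.F - algebraMap Ω (Module.End Ω R'.V) ((q : Ω) ^ c * α)) (φ y) =
            (q : Ω) ^ c • φ ((R.F - algebraMap Ω (Module.End Ω R.V) α) y) := by
          rw [LinearMap.sub_apply, Module.algebraMap_end_apply, hφ.frob y hy, LinearMap.smul_apply,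
            map_smul, LinearMap.sub_apply, Module.algebraMap_end_apply, map_sub, map_smul, smul_sub,
            smul_smul]
        rw [pow_succ, Module.End.mul_apply, h5, map_smul, ih _ h4, smul_smul, ← pow_succ',
          pow_succ (R.F - algebraMap Ω (Module.End Ω R.V) α), Module.End.mul_apply]
    rw [key k y hy1, hk, map_zero, smul_zero]
  exact h hx1

/-- The cup product respects the weights. -/
lemma cup_exc (hq : 0 < q) {μ : R.V →ₗ[Ω] R.V →ₗ[Ω] R.V} (hμ : IsCup R μ) {m n : ℕ} {c d : ℤ}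
    {x y : R.V} (hx : x ∈ R.exc q m c) (hy : y ∈ R.exc q n d) :
    μ x y ∈ R.exc q (m + n) (c + d) := by
  have h2 : R.exc q m c ≤ (R.exc q (m + n) (c + d)).comap (μ.flip y) := by
    refine iSup₂_le fun α hα z hz => ?_
    have h3 : R.exc q n d ≤ (R.exc q (m + n) (c + d)).comap (μ z) := by
      refine iSup₂_le fun β hβ t ht => ?_
      obtain ⟨hz1, hz2⟩ := Submodule.mem_inf.1 hz
      obtain ⟨ht1, ht2⟩ := Submodule.mem_inf.1 ht
      have h4 := weil_mul hq hα hβ
      rw [show (m : ℤ) + c + (n + d) = ((m + n : ℕ) : ℤ) + (c + d) by push_cast; ring] at h4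
      refine Submodule.mem_iSup_of_mem _ (Submodule.mem_iSup_of_mem h4 ?_)
      refine Submodule.mem_inf.2 ⟨hμ.degree m n z t hz1 ht1, ?_⟩
      have h5 := gen_tmul hz2 ht2
      have h6 := gen_map (g := R.F) (TensorProduct.lift μ) (fun v => ?_) h5
      · rwa [TensorProduct.lift.tmul] at h6
      · induction v using TensorProduct.induction_on with
        | zero => simp
        | tmul a b => 
          rw [TensorProduct.lift.tmul, TensorProduct.map_tmul, TensorProduct.lift.tmul]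
          exact hμ.frob a b
        | add a b ha hb => rw [map_add, map_add, map_add, map_add, ha, hb]
    exact h3 hy
  exact h2 hx

/-- `z` is the image of a weight vector of a representation of `sl(2)` under a map to the subspace
`G`. -/
def Basic (R : Coh.{v, w} Ω) (q : ℕ) (G : Submodule Ω R.V) (m : ℕ) (c : ℤ) (z : R.V) : Prop :=
  ∃ (P : Type v) (_ : AddCommGroup P) (_ : Module Ω P) (I : Type) (_ : Fintype I)
    (N' e h : Module.End Ω P) (b : Basis I Ω P) (a : I → ℤ) (Φ : P →ₗ[Ω] R.V) (i : I),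
    IsSl2 N' b a e h ∧ (∀ x, R.N (Φ x) = Φ (N' x)) ∧
      (∀ i, Φ (b i) ∈ R.exc q m (a i) ⊓ G) ∧ a i = c ∧ Φ (b i) = z

variable {G : Submodule Ω R.V}

lemma Basic.mem {m : ℕ} {c : ℤ} {z : R.V} (h : Basic R q G m c z) : z ∈ R.exc q m c ⊓ G := by
  obtain ⟨P, _, _, I, _, N', e, h, b, a, Φ, i, -, -, h3, h4, h5⟩ := h
  rw [← h5, ← h4]
  exact h3 i

lemma Basic.surj {m : ℕ} {a : ℕ} {z : R.V} (h : Basic R q G m (-(a : ℤ)) z) :
    ∃ x ∈ R.exc q m a ⊓ G, (R.N ^ a) x = z := by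
  classical
  obtain ⟨P, _, _, I, _, N', e, h, b, w, Φ, i, hs, hN, h3, h4, h5⟩ := h
  obtain ⟨-, h6⟩ := Pool.Agent.Y141.MW.stL Ω P N' I b w e h hs a
  obtain ⟨x, hx, hxy⟩ := h6 (b i) (by rw [hs.wt, h4]; push_cast; rfl)
  have hN' : ∀ (k : ℕ) (x : P), (R.N ^ k) (Φ x) = Φ ((N' ^ k) x) := by
    intro k
    induction k with
    | zero => intro x; simp
    | succ k ih => intro x; rw [pow_succ, Module.End.mul_apply, hN, ih, pow_succ,
        Module.End.mul_apply]
  refine ⟨Φ x, ?_, by rw [hN', hxy, h5]⟩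
  -- `x` is a sum of basis vectors of weight `a`
  have h7 : x ∈ Submodule.span Ω (b '' {i | w i = (a : ℤ)}) := by
    rw [b.mem_span_image]
    intro j hj
    rw [Finset.mem_coe, Finsupp.mem_support_iff] at hj
    have h2 : h x = ∑ j, (b.repr x j * (w j : Ω)) • b j := by
      conv_lhs => rw [← b.sum_repr x]
      rw [map_sum]
      refine Finset.sum_congr rfl fun j _ => ?_
      rw [map_smul, hs.wt, smul_smul]
    have h3 : b.repr (h x) j = b.repr x j * (w j : Ω) := by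
      rw [h2, map_sum, Finsupp.finsetSum_apply, Finset.sum_eq_single j]
      · simp
      · intro k _ hk
        rw [map_smul, Finsupp.smul_apply, b.repr_self, Finsupp.single_apply, if_neg hk, smul_zero]
      · intro hi'
        exact absurd (Finset.mem_univ j) hi'
    rw [hx, map_smul, Finsupp.smul_apply, smul_eq_mul, mul_comm] at h3
    have h4 : (a : Ω) = (w j : Ω) := mul_left_cancel₀ hj h3
    have h5 : (a : ℤ) = w j := by exact_mod_cast h4
    exact h5.symm
  have h8 : Submodule.span Ω (b '' {i | w i = (a : ℤ)}) ≤ (R.exc q m a ⊓ G).comap Φ := by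
    rw [Submodule.span_le]
    rintro _ ⟨k, hk, rfl⟩
    have := h3 k
    rwa [show w k = a from hk] at this
  exact h8 h7

lemma Basic.mul (hq : 0 < q) {μ : R.V →ₗ[Ω] R.V →ₗ[Ω] R.V} (hμ : IsCup R μ)
    (hG : ∀ x ∈ G, ∀ y ∈ G, μ x y ∈ G) {m n : ℕ} {c d : ℤ}
    {x y : R.V} (hx : Basic R q G m c x) (hy : Basic R q G n d y) :
    Basic R q G (m + n) (c + d) (μ x y) := by
  obtain ⟨P, _, _, I, _, N₁, e₁, h₁, b₁, a₁, Φ₁, i₁, hs₁, hN₁, hb₁, hi₁, hx₁⟩ := hx
  obtain ⟨Q, _, _, J, _, N₂, e₂, h₂, b₂, a₂, Φ₂, i₂, hs₂, hN₂, hb₂, hi₂, hx₂⟩ := hy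
  refine ⟨P ⊗[Ω] Q, inferInstance, inferInstance, I × J, inferInstance, _, _, _,
    b₁.tensorProduct b₂, fun p => a₁ p.1 + a₂ p.2, TensorProduct.lift (μ.compl₁₂ Φ₁ Φ₂), (i₁, i₂),
    Pool.Agent.Y210.MW.t_B3 Ω P Q N₁ I b₁ a₁ e₁ h₁ N₂ J b₂ a₂ e₂ h₂ hs₁ hs₂, ?_, ?_, ?_, ?_⟩
  · intro t
    induction t using TensorProduct.induction_on with
    | zero => simp
    | tmul a b =>
      rw [TensorProduct.lift.tmul, LinearMap.compl₁₂_apply]
      have h1 : R.N (μ (Φ₁ a) (Φ₂ b)) = μ (R.N (Φ₁ a)) (Φ₂ b) + μ (Φ₁ a) (R.N (Φ₂ b)) :=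
        hμ.mono _ _
      rw [h1, hN₁, hN₂, LinearMap.add_apply, TensorProduct.map_tmul, TensorProduct.map_tmul,
        map_add, TensorProduct.lift.tmul, TensorProduct.lift.tmul, LinearMap.compl₁₂_apply,
        LinearMap.compl₁₂_apply, LinearMap.id_apply, LinearMap.id_apply]
    | add a b ha hb => rw [map_add, map_add, map_add, map_add, ha, hb]
  · rintro ⟨i, j⟩
    rw [Basis.tensorProduct_apply, TensorProduct.lift.tmul, LinearMap.compl₁₂_apply]
    exact Submodule.mem_inf.2 ⟨cup_exc hq hμ (Submodule.mem_inf.1 (hb₁ i)).1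
      (Submodule.mem_inf.1 (hb₂ j)).1, hG _ (Submodule.mem_inf.1 (hb₁ i)).2 _
      (Submodule.mem_inf.1 (hb₂ j)).2⟩
  · change a₁ i₁ + a₂ i₂ = c + d
    rw [hi₁, hi₂]
  · rw [Basis.tensorProduct_apply, TensorProduct.lift.tmul, LinearMap.compl₁₂_apply, hx₁, hx₂]

/-- Induced classes are sums of basic classes. -/
lemma basic_of_induced [IsAlgClosed Ω] (hq : 1 < q) (hR : R.IsCoh q) {c : ℤ} {j n : ℕ}
    {S : Submodule Ω R.V} (hS : IsPureSub R q j S)
    {φ : R.V →ₗ[Ω] R'.V} (hφ : IsEquivariant R R' q c j n S φ)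
    {G : Submodule Ω R'.V} (hG : ∀ x ∈ S, φ x ∈ G) {x : R.V}
    (hx : x ∈ S) : φ x ∈ ⨆ d : ℤ, Submodule.span Ω {z | Basic R' q G n d z} := by
  have := hR.finite
  have hi := internal_comap (W := fun c => R.exc q j c ⊓ S)
    ((Coh.indep_exc_deg hq hR j).mono fun c => inf_le_left) (iSup_exc_inf hR hS.le hS.frob)
  have hc := (centred_comap (W := fun c => R.exc q j c ⊓ S) hS.mono (fun c => inf_le_right)).2
    ((pureOn_iff hq hR hS.le hS.frob hS.mono).1 hS.pure)
  obtain ⟨Z⟩ := Pool.Agent.Y153.MW.stA Ω S _ (R.N.restrict hS.mono) hi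
    (fun c x hx => ⟨Coh.N_exc hq hR j c x hx.1, hS.mono x hx.2⟩)
  have htop := (Pool.Agent.Y614.MW.stF Ω S _ (R.N.restrict hS.mono) hi Z).1 hc
  obtain ⟨e, h, hs⟩ := Pool.Agent.Y664.MW.t_B2 Ω S _ (R.N.restrict hS.mono) Z
  have hmem : ∀ p, ((Z.b p : S) : R.V) ∈ R.exc q j ((Z.len p.1 : ℤ) - 2 * (p.2 : ℕ)) ⊓ S := by
    intro p
    have h1 := Z.mem p.1 p.2
    rw [htop p.1] at h1
    exact h1
  have hbasic : ∀ p, Basic R' q G n ((Z.len p.1 : ℤ) - 2 * (p.2 : ℕ)) (φ (Z.b p)) := by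
    intro p
    refine ⟨S, inferInstance, inferInstance, _, inferInstance, _, e, h, Z.b, _,
      φ.comp S.subtype, p, hs, ?_, ?_, rfl, rfl⟩
    · intro x
      exact hφ.mono x x.2
    · intro p'
      exact Submodule.mem_inf.2 ⟨exc_image hq hR hS.le hS.frob hφ (hmem p'), hG _ (Z.b p').2⟩
  have h1 : (⟨x, hx⟩ : S) = ∑ p, Z.b.repr ⟨x, hx⟩ p • Z.b p := (Z.b.sum_repr _).symm
  have h2 : φ x = ∑ p, Z.b.repr ⟨x, hx⟩ p • φ (Z.b p) := by
    have h3 := congrArg (fun y : S => φ (y : R.V)) h1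
    simp only [Submodule.coe_sum, Submodule.coe_smul, map_sum, map_smul] at h3
    exact h3
  rw [h2]
  refine Submodule.sum_mem _ fun p _ => Submodule.smul_mem _ _ ?_
  exact Submodule.mem_iSup_of_mem _ (Submodule.subset_span (hbasic p))

end

end Pool.Agent.L7h94.MWG
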