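import Pool.Agent.Y163.MW.Asm

/-!
# The part of the cohomology generated by classes induced from other varieties: definitions
-/

set_option autoImplicit false

open Module TensorProduct

universe u v w

namespace Pool.Agent.L7h94.MWG

open Pool.Agent.H914 Pool.Agent.Y143 Pool.Agent.Y163.MW

section

variable {Ω : Type w} [Field Ω] {V V' : Type v} [AddCommGroup V] [Module Ω V]
  [AddCommGroup V'] [Module Ω V']

/-- The subspace `S` is stable under `f`. -/
def Stable (S : Submodule Ω V) (f : Module.End Ω V) : Prop := ∀ x ∈ S, f x ∈ S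

/-- `φ` maps `S` to `S'`. -/
def MapsInto (S : Submodule Ω V) (S' : Submodule Ω V') (φ : V →ₗ[Ω] V') : Prop :=
  ∀ x ∈ S, φ x ∈ S'

/-- `f' φ = φ f` on `S`. -/
def CommutesOn (S : Submodule Ω V) (f : Module.End Ω V) (f' : Module.End Ω V')
    (φ : V →ₗ[Ω] V') : Prop := ∀ x ∈ S, f' (φ x) = φ (f x)

/-- `B(y, x) = ε B(x, y)` on `S`. -/
def SymmOn (S : Submodule Ω V) (ε : Ω) (B : V →ₗ[Ω] V →ₗ[Ω] Ω) : Prop :=
  ∀ x y, x ∈ S → y ∈ S → val B y x = ε * val B x y

/-- The restriction of `B` to `S` is nondegenerate. -/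
def NondegOn (S : Submodule Ω V) (B : V →ₗ[Ω] V →ₗ[Ω] Ω) : Prop :=
  ∀ x ∈ S, (∀ y ∈ S, val B x y = 0) → x = 0

/-- `B(f x, f y) = c B(x, y)` on `S`. -/
def ScaledOn (S : Submodule Ω V) (c : Ω) (f : Module.End Ω V) (B : V →ₗ[Ω] V →ₗ[Ω] Ω) : Prop :=
  ∀ x y, x ∈ S → y ∈ S → val B (f x) (f y) = c * val B x y

/-- `B(f x, y) + B(x, f y) = 0` on `S`. -/
def SkewOn (S : Submodule Ω V) (f : Module.End Ω V) (B : V →ₗ[Ω] V →ₗ[Ω] Ω) : Prop :=
  ∀ x y, x ∈ S → y ∈ S → val B (f x) y + val B x (f y) = 0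

/-- `S'` is the orthogonal complement of `S` in `G`. -/
def IsOrth (G S S' : Submodule Ω V) (B : V →ₗ[Ω] V →ₗ[Ω] Ω) : Prop :=
  ∀ x, x ∈ S' ↔ x ∈ G ∧ ∀ y ∈ S, val B x y = 0

/-- The product of `x` and `y`. -/
def cup (μ : V →ₗ[Ω] V →ₗ[Ω] V) (x y : V) : V := μ x y

/-- The product is graded. -/
def CupGraded (gr : ℕ → Submodule Ω V) (μ : V →ₗ[Ω] V →ₗ[Ω] V) : Prop :=
  ∀ (m n : ℕ) (x y : V), x ∈ gr m → y ∈ gr n → cup μ x y ∈ gr (m + n)

/-- `f` is multiplicative. -/
def CupMul (f : Module.End Ω V) (μ : V →ₗ[Ω] V →ₗ[Ω] V) : Prop :=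
  ∀ x y : V, f (cup μ x y) = cup μ (f x) (f y)

/-- `f` is a derivation. -/
def CupDer (f : Module.End Ω V) (μ : V →ₗ[Ω] V →ₗ[Ω] V) : Prop :=
  ∀ x y : V, f (cup μ x y) = cup μ (f x) y + cup μ x (f y)

/-- The smallest subspace which contains the elements of `Z` and is stable under the product. -/
def generated (Z : Set V) (μ : V →ₗ[Ω] V →ₗ[Ω] V) : Submodule Ω V :=
  sInf {P | (∀ z ∈ Z, z ∈ P) ∧ ∀ x ∈ P, ∀ y ∈ P, cup μ x y ∈ P}

end

section

variable {K : Type u} [Field K] {Ω : Type w} [Field Ω] [CharZero Ω]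

/-- The subspace `S` of `H^m` is mw pure of weight `m`: for all `s` the eigenvalues of `F` on the
graded piece `M_s / M_(s - 1)` of the monodromy filtration `M` of `S` are `q`-Weil numbers of weight
`m + s`. -/
def PureOn (R : Coh.{v, w} Ω) (q m : ℕ) (S : Submodule Ω R.V) : Prop :=
  ∃ M : ℤ → Submodule Ω R.V, IsMonodromyFiltrationOn S R.N M ∧
    ∀ (s : ℤ) (α : Ω) (x : R.V), x ∈ M s → x ∉ M (s - 1) → R.F x - α • x ∈ M (s - 1) →
      IsWeilNumber q (m + s) α

/-- `S` is a subspace of `H^j` which is stable under `F` and `N` and mw pure of weight `j`. If the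
monodromy-weight conjecture holds for `H^j` (for example if `j ≤ 2`), `S` may be `H^j`. -/
structure IsPureSub (R : Coh.{v, w} Ω) (q j : ℕ) (S : Submodule Ω R.V) : Prop where
  le : S ≤ R.gr j
  frob : Stable S R.F
  mono : Stable S R.N
  pure : PureOn R q j S

/-- The linear map `φ` maps the subspace `S` of `H^j` of the first variety to `H^n` of the second
one, `n = j + 2 c`, and it defines a map `S(-c) → H^n` which commutes with the Frobenius and with the
monodromy operators. -/
structure IsEquivariant (R R' : Coh.{v, w} Ω) (q : ℕ) (c : ℤ) (j n : ℕ) (S : Submodule Ω R.V)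
    (φ : R.V →ₗ[Ω] R'.V) : Prop where
  degree : (n : ℤ) = j + 2 * c
  gr : MapsInto S (R'.gr n) φ
  frob : CommutesOn S ((q : Ω) ^ c • R.F) R'.F φ
  mono : CommutesOn S R.N R'.N φ

/-- The known properties of the cup product: it is graded, the Frobenius is multiplicative and the
monodromy operator is a derivation. -/
structure IsCup (R : Coh.{v, w} Ω) (μ : R.V →ₗ[Ω] R.V →ₗ[Ω] R.V) : Prop where
  degree : CupGraded R.gr μ
  frob : CupMul R.F μ
  mono : CupDer R.N μ

/-- A class of linear maps from the cohomology of varieties `Y` to the cohomology of `X`, for example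
the class of the maps given by algebraic correspondences. -/
def MapClass (T : Theory.{u, v, w} K Ω) (X : SmVar.{u} K) : Type (max (u + 1) v) :=
  ∀ Y : SmVar.{u} K, ((T.H Y).V →ₗ[Ω] (T.H X).V) → Prop

/-- `z` is induced from the cohomology of another variety: it is the image of an element of a stable
mw pure subspace `S` of some `H^j(Y)` (for example `S = H^j(Y)` for `j ≤ 2`, or for all `j` if `Y` is a
curve, a surface or an abelian variety) under a map `S(-c) → H^n(X)` in the class `C` which commutes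
with the actions of the Weil group. -/
def Induced (T : Theory.{u, v, w} K Ω) (q : ℕ) (X : SmVar.{u} K) (C : MapClass T X)
    (z : (T.H X).V) : Prop :=
  ∃ (Y : SmVar.{u} K) (j n : ℕ) (c : ℤ) (S : Submodule Ω (T.H Y).V)
    (φ : (T.H Y).V →ₗ[Ω] (T.H X).V), C Y φ ∧ IsPureSub (T.H Y) q j S ∧
      IsEquivariant (T.H Y) (T.H X) q c j n S φ ∧ ∃ x ∈ S, φ x = z

/-- The part of `H^m(X)` generated by induced classes: the intersection of `H^m(X)` with the smallest
subspace of the cohomology of `X` which contains the induced classes and is stable under the cup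
product. -/
def part (T : Theory.{u, v, w} K Ω) (q : ℕ) (X : SmVar.{u} K) (C : MapClass T X)
    (μ : (T.H X).V →ₗ[Ω] (T.H X).V →ₗ[Ω] (T.H X).V) (m : ℕ) : Submodule Ω (T.H X).V :=
  generated {z | Induced T q X C z} μ ⊓ (T.H X).gr m

/-- `B` is a nondegenerate form on `H^m` which is symmetric for even `m` and alternating for odd
`m`, with `B(F x, F y) = q ^ m B(x, y)` and `B(N x, y) + B(x, N y) = 0` (for example the polarization
form given by the cup product with powers of an ample class and the Lefschetz decomposition). -/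
structure IsForm (R : Coh.{v, w} Ω) (q m : ℕ) (B : R.V →ₗ[Ω] R.V →ₗ[Ω] Ω) : Prop where
  symm : SymmOn (R.gr m) ((-1) ^ m) B
  nondeg : NondegOn (R.gr m) B
  frob : ScaledOn (R.gr m) ((q : Ω) ^ m) R.F B
  mono : SkewOn (R.gr m) R.N B

/-- `H^m` is the direct sum of `S` and its orthogonal complement `S'`, and both are stable under `F`
and `N`. -/
structure IsComplement (R : Coh.{v, w} Ω) (m : ℕ) (B : R.V →ₗ[Ω] R.V →ₗ[Ω] Ω)
    (S S' : Submodule Ω R.V) : Prop where
  orth : IsOrth (R.gr m) S S' B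
  sup : S ⊔ S' = R.gr m
  inf : S ⊓ S' = ⊥
  stable : Stable S R.F ∧ Stable S R.N ∧ Stable S' R.F ∧ Stable S' R.N

end

end Pool.Agent.L7h94.MWG
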