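import Pool.Agent.L7h94.MWG.Part

/-!
# The monodromy-weight conjecture for the generated part and its complement
-/

set_option autoImplicit false

open Module TensorProduct

universe u v w

namespace Pool.Agent.L7h94.MWG

open Pool.Agent.H914 Pool.Agent.Y143 Pool.Agent.Y163.MW Pool.Agent.Y136.UB

section

variable {Ω : Type w} [Field Ω] [CharZero Ω] {R : Coh.{v, w} Ω} {q : ℕ} {m : ℕ}
  {S S' : Submodule Ω R.V}

lemma pow_mem {N : Module.End Ω R.V} (hN : ∀ x ∈ S, N x ∈ S) (a : ℕ) : ∀ x ∈ S, (N ^ a) x ∈ S := by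
  induction a with
  | zero => intro x hx; simpa using hx
  | succ a ih => intro x hx; rw [pow_succ', Module.End.mul_apply]; exact hN _ (ih x hx)

/-- The orthogonal complement. -/
def perp (R : Coh.{v, w} Ω) (m : ℕ) (B : R.V →ₗ[Ω] R.V →ₗ[Ω] Ω) (S : Submodule Ω R.V) :
    Submodule Ω R.V := R.gr m ⊓ ⨅ y : S, LinearMap.ker (B.flip y)

lemma mem_perp {B : R.V →ₗ[Ω] R.V →ₗ[Ω] Ω} {x : R.V} :
    x ∈ perp R m B S ↔ x ∈ R.gr m ∧ ∀ y ∈ S, B x y = 0 := by
  rw [perp, Submodule.mem_inf, Submodule.mem_iInf]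
  constructor
  · rintro ⟨h1, h2⟩
    exact ⟨h1, fun y hy => h2 ⟨y, hy⟩⟩
  · rintro ⟨h1, h2⟩
    exact ⟨h1, fun y => h2 y y.2⟩

lemma isComplement_perp (hq : 0 < q) (hR : R.IsCoh q) (hS : S ≤ R.gr m)
    (hF : ∀ x ∈ S, R.F x ∈ S) (hN : ∀ x ∈ S, R.N x ∈ S) {B : R.V →ₗ[Ω] R.V →ₗ[Ω] Ω}
    (hB : IsForm R q m B) (hnd : NondegOn S B) : IsComplement R m B S (perp R m B S) := by
  have := hR.finite
  have hq0 : (q : Ω) ^ m ≠ 0 := pow_ne_zero _ (Nat.cast_ne_zero.2 hq.ne')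
  have hnd' : ∀ x ∈ S, (∀ y ∈ S, B x y = 0) → x = 0 := hnd
  have hinf : S ⊓ perp R m B S = ⊥ := by
    rw [Submodule.eq_bot_iff]
    rintro x ⟨hx, hx'⟩
    exact hnd' x hx (mem_perp.1 hx').2
  -- `F` is bijective on `S`
  have hFinj : ∀ x ∈ R.gr m, R.F x = 0 → x = 0 := by
    intro x hx h0
    refine hB.nondeg x hx fun y hy => ?_
    have h1 := hB.frob x y hx hy
    have h2 : val B (R.F x) (R.F y) = 0 := by
      rw [h0]
      change B 0 (R.F y) = 0
      rw [map_zero, LinearMap.zero_apply]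
    rw [h2] at h1
    rcases mul_eq_zero.1 h1.symm with h3 | h3
    · exact absurd h3 hq0
    · exact h3
  have hFsurj : ∀ y ∈ S, ∃ x ∈ S, R.F x = y := by
    have h1 : Function.Injective (R.F.restrict hF) := by
      rw [← LinearMap.ker_eq_bot, LinearMap.ker_eq_bot']
      intro x hx
      exact Subtype.ext (hFinj x (hS x.2) (congrArg Subtype.val hx))
    have h2 := LinearMap.injective_iff_surjective.1 h1
    intro y hy
    obtain ⟨x, hx⟩ := h2 ⟨y, hy⟩
    exact ⟨x, x.2, congrArg Subtype.val hx⟩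
  refine ⟨fun x => mem_perp, ?_, hinf, hF, hN, fun x hx => ?_, fun x hx => ?_⟩
  · apply le_antisymm
    · exact sup_le hS fun x hx => (mem_perp.1 hx).1
    · intro x hx
      let φ : S →ₗ[Ω] Module.Dual Ω S :=
        { toFun := fun x => (B x).comp S.subtype
          map_add' := fun x y => by ext z; simp
          map_smul' := fun a x => by ext z; simp }
      have hφ : Function.Injective φ := by
        rw [← LinearMap.ker_eq_bot, LinearMap.ker_eq_bot']
        intro x hx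
        refine Subtype.ext (hnd' x x.2 fun y hy => ?_)
        exact DFunLike.congr_fun hx ⟨y, hy⟩
      have hφ' : Function.Surjective φ :=
        (LinearMap.injective_iff_surjective_of_finrank_eq_finrank
          (Subspace.dual_finrank_eq).symm).1 hφ
      obtain ⟨s, hs⟩ := hφ' ((B x).comp S.subtype)
      rw [Submodule.mem_sup]
      refine ⟨s, s.2, x - s, mem_perp.2 ⟨(R.gr m).sub_mem hx (hS s.2), fun y hy => ?_⟩,
        add_sub_cancel _ _⟩
      have h1 : B s y = B x y := DFunLike.congr_fun hs ⟨y, hy⟩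
      rw [map_sub, LinearMap.sub_apply, h1, sub_self]
  · obtain ⟨hx1, hx2⟩ := mem_perp.1 hx
    refine mem_perp.2 ⟨hR.F_gr m x hx1, fun y hy => ?_⟩
    obtain ⟨z, hz, rfl⟩ := hFsurj y hy
    have h1 : B (R.F x) (R.F z) = (q : Ω) ^ m * B x z := hB.frob x z hx1 (hS hz)
    rw [h1, hx2 z hz, mul_zero]
  · obtain ⟨hx1, hx2⟩ := mem_perp.1 hx
    refine mem_perp.2 ⟨hR.N_gr m x hx1, fun y hy => ?_⟩
    have h1 : B (R.N x) y + B x (R.N y) = 0 := hB.mono x y hx1 (hS hy)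
    rwa [hx2 _ (hN y hy), add_zero] at h1

/-- Purity of `H^m` and of a complement of a pure subspace. -/
lemma pure_iff_complement [IsAlgClosed Ω] (hq : 1 < q) (hR : R.IsCoh q) (hS : S ≤ R.gr m)
    {B : R.V →ₗ[Ω] R.V →ₗ[Ω] Ω} (h : IsComplement R m B S S')
    (hpure : Centred (fun c => R.exc q m c ⊓ S) R.N) : R.MWPure q m ↔ PureOn R q m S' := by
  have hS' : S' ≤ R.gr m := fun x hx => ((h.orth x).1 hx).1
  have hF : ∀ x ∈ S, R.F x ∈ S := h.stable.1
  have hN : ∀ x ∈ S, R.N x ∈ S := h.stable.2.1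
  have hF' : ∀ x ∈ S', R.F x ∈ S' := h.stable.2.2.1
  have hN' : ∀ x ∈ S', R.N x ∈ S' := h.stable.2.2.2
  have h0 : ∀ u v, u ∈ S → v ∈ S' → u + v = 0 → u = 0 ∧ v = 0 := by
    intro u v hu hv huv
    have h1 : u ∈ S ⊓ S' := by
      refine ⟨hu, ?_⟩
      rw [eq_neg_of_add_eq_zero_left huv]
      exact S'.neg_mem hv
    rw [h.inf, Submodule.mem_bot] at h1
    rw [h1, zero_add] at huv
    exact ⟨h1, huv⟩
  have hdec : ∀ (c : ℤ), ∀ x ∈ R.exc q m c, ∃ u ∈ R.exc q m c ⊓ S, ∃ v ∈ R.exc q m c ⊓ S',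
      u + v = x := by
    intro c x hx
    rw [← Submodule.mem_sup]
    refine mem_of_indep (E := fun c => R.exc q m c)
      (A := fun c => (R.exc q m c ⊓ S) ⊔ (R.exc q m c ⊓ S')) (Coh.indep_exc_deg hq hR m)
      (fun c => sup_le inf_le_left inf_le_left) hx ?_
    have h1 : S ⊔ S' ≤ ⨆ c, (R.exc q m c ⊓ S) ⊔ (R.exc q m c ⊓ S') := by
      refine sup_le ?_ ?_
      · calc S = ⨆ c, R.exc q m c ⊓ S := (iSup_exc_inf hR hS hF).symm
          _ ≤ _ := iSup_mono fun c => le_sup_left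
      · calc S' = ⨆ c, R.exc q m c ⊓ S' := (iSup_exc_inf hR hS' hF').symm
          _ ≤ _ := iSup_mono fun c => le_sup_right
    rw [h.sup] at h1
    exact h1 (Coh.exc_le m c hx)
  rw [Coh.mwPure_iff hq hR, pureOn_iff hq hR hS' hF' hN']
  constructor
  · intro hc a
    refine ⟨fun x hx h1 => (hc a).1 x hx.1 h1, fun y hy => ?_⟩
    obtain ⟨x, hx, hxy⟩ := (hc a).2 y hy.1
    obtain ⟨u, hu, v, hv, rfl⟩ := hdec _ x hx
    refine ⟨v, hv, ?_⟩
    rw [map_add] at hxy
    have h1 := h0 ((R.N ^ a) u) ((R.N ^ a) v - y) (pow_mem hN a u hu.2)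
      (S'.sub_mem (pow_mem hN' a v hv.2) hy.2) (by rw [← add_sub_assoc, hxy, sub_self])
    exact sub_eq_zero.1 h1.2
  · intro hc a
    refine ⟨fun x hx h1 => ?_, fun y hy => ?_⟩
    · obtain ⟨u, hu, v, hv, rfl⟩ := hdec _ x hx
      rw [map_add] at h1
      obtain ⟨h2, h3⟩ := h0 _ _ (pow_mem hN a u hu.2) (pow_mem hN' a v hv.2) h1
      rw [(hpure a).1 u hu h2, (hc a).1 v hv h3, add_zero]
    · obtain ⟨u, hu, v, hv, rfl⟩ := hdec _ y hy
      obtain ⟨u', hu', h2⟩ := (hpure a).2 u hu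
      obtain ⟨v', hv', h3⟩ := (hc a).2 v hv
      exact ⟨u' + v', Submodule.add_mem _ hu'.1 hv'.1, by rw [map_add, h2, h3]⟩

end

section

variable {K : Type u} [Field K] {Ω : Type w} [Field Ω] [CharZero Ω] [IsAlgClosed Ω]
  {T : Theory.{u, v, w} K Ω} {q : ℕ} {X : SmVar.{u} K} {C : MapClass T X}
  {μ : (T.H X).V →ₗ[Ω] (T.H X).V →ₗ[Ω] (T.H X).V} {m : ℕ}

/-- The conjecture holds for `H^m(X)` if it is generated by induced classes. -/
theorem pure_of_generated (hq : 1 < q) (hT : T.IsLocal q) (hμ : IsCup (T.H X) μ)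
    (h : part T q X C μ m = (T.H X).gr m) : (T.H X).MWPure q m := by
  have hR := hT.coh X
  obtain ⟨B, hB⟩ := hR.dual
  have hnd : ∀ x ∈ (T.H X).gr m, (∀ y ∈ (T.H X).gr m, B x y = 0) → x = 0 := by
    intro x hx h0
    apply hB.nondeg
    intro y
    have h1 : (⊤ : Submodule Ω (T.H X).V) ≤ LinearMap.ker (B x) := by
      rw [← hR.isInternal.submodule_iSup_eq_top]
      refine iSup_le fun m' y hy => ?_
      rw [LinearMap.mem_ker]
      by_cases hm : m = m'
      · subst hm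
        exact h0 y hy
      · exact hB.orth m m' x y hx hy hm
    exact LinearMap.mem_ker.1 (h1 (Submodule.mem_top))
  have h1 : PureOn (T.H X) q m ((T.H X).gr m) := by
    rw [pureOn_iff hq hR le_rfl (hR.F_gr m) (hR.N_gr m)]
    refine centred_of_surj hR ?_ (finrank_inf_neg hq hR le_rfl (hR.F_gr m)
      (fun x y hx hy => hB.frob m x y hx hy) hnd)
    intro a y hy
    rw [← h] at hy ⊢
    exact part_surj hq hT hμ a y hy
  exact h1

/-- The generated part is pure. -/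
theorem part_centred (hq : 1 < q) (hT : T.IsLocal q) (hμ : IsCup (T.H X) μ)
    {B : (T.H X).V →ₗ[Ω] (T.H X).V →ₗ[Ω] Ω} (hB : IsForm (T.H X) q m B)
    (hnd : NondegOn (part T q X C μ m) B) :
    Centred (fun c => (T.H X).exc q m c ⊓ part T q X C μ m) (T.H X).N :=
  centred_of_surj (hT.coh X) (part_surj hq hT hμ) (finrank_inf_neg hq (hT.coh X) inf_le_right
    (fun x hx => ⟨F_gen hμ x hx.1, (hT.coh X).F_gr m x hx.2⟩)
    (fun x y hx hy => hB.frob x y hx hy) hnd)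

theorem part_pure (hq : 1 < q) (hT : T.IsLocal q) (hμ : IsCup (T.H X) μ)
    {B : (T.H X).V →ₗ[Ω] (T.H X).V →ₗ[Ω] Ω} (hB : IsForm (T.H X) q m B)
    (hnd : NondegOn (part T q X C μ m) B) :
    PureOn (T.H X) q m (part T q X C μ m) ∧ ∃ S', IsComplement (T.H X) m B (part T q X C μ m) S' ∧
      ((T.H X).MWPure q m ↔ PureOn (T.H X) q m S') := by
  have hR := hT.coh X
  have hF : ∀ x ∈ part T q X C μ m, (T.H X).F x ∈ part T q X C μ m :=
    fun x hx => ⟨F_gen hμ x hx.1, hR.F_gr m x hx.2⟩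
  have hN : ∀ x ∈ part T q X C μ m, (T.H X).N x ∈ part T q X C μ m :=
    fun x hx => ⟨N_gen hμ x hx.1, hR.N_gr m x hx.2⟩
  have hc := part_centred (C := C) hq hT hμ hB hnd
  have h1 := isComplement_perp (by omega) hR inf_le_right hF hN hB hnd
  exact ⟨(pureOn_iff hq hR inf_le_right hF hN).2 hc, _, h1,
    pure_iff_complement hq hR inf_le_right h1 hc⟩

end

end Pool.Agent.L7h94.MWG
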