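import Pool.Agent.L7h94.MWG.Core

/-!
# The part of the cohomology generated by induced classes: purity
-/

set_option autoImplicit false

open Module TensorProduct

universe u v w

namespace Pool.Agent.L7h94.MWG

open Pool.Agent.H914 Pool.Agent.Y143 Pool.Agent.Y163.MW Pool.Agent.Y136.UB

section

variable {Ω : Type w} [Field Ω] [CharZero Ω] {R : Coh.{v, w} Ω} {q : ℕ} {m : ℕ}
  {S : Submodule Ω R.V}

/-- Symmetry of the weights on a subspace with a nondegenerate form. -/
lemma finrank_inf_neg [IsAlgClosed Ω] (hq : 1 < q) (hR : R.IsCoh q) (hS : S ≤ R.gr m)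
    (hF : ∀ x ∈ S, R.F x ∈ S) {B : R.V →ₗ[Ω] R.V →ₗ[Ω] Ω}
    (hB : ∀ x y, x ∈ R.gr m → y ∈ R.gr m → B (R.F x) (R.F y) = (q : Ω) ^ m * B x y)
    (hnd : ∀ x ∈ S, (∀ y ∈ S, B x y = 0) → x = 0) (c : ℤ) :
    finrank Ω (R.exc q m c ⊓ S : Submodule Ω R.V) =
      finrank Ω (R.exc q m (-c) ⊓ S : Submodule Ω R.V) := by
  have := hR.finite
  have key : ∀ c : ℤ, finrank Ω (R.exc q m c ⊓ S : Submodule Ω R.V) ≤
      finrank Ω (R.exc q m (-c) ⊓ S : Submodule Ω R.V) := by
    intro c
    let φ : (R.exc q m c ⊓ S : Submodule Ω R.V) →ₗ[Ω]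
        Module.Dual Ω (R.exc q m (-c) ⊓ S : Submodule Ω R.V) :=
      { toFun := fun x => (B x).comp (R.exc q m (-c) ⊓ S).subtype
        map_add' := fun x y => by ext z; simp
        map_smul' := fun a x => by ext z; simp }
    have hφ : Function.Injective φ := by
      rw [← LinearMap.ker_eq_bot, LinearMap.ker_eq_bot']
      intro x hx
      apply Subtype.ext
      refine hnd x x.2.2 ?_
      have h1 : ∀ c', ∀ y ∈ R.exc q m c' ⊓ S, B x y = 0 := by
        intro c' y hy
        by_cases hc : c' = -c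
        · subst hc
          exact DFunLike.congr_fun hx ⟨y, hy⟩
        · have h2 : R.exc q m c ≤ LinearMap.ker (B.flip y) := by
            refine iSup₂_le fun α hα z hz => ?_
            rw [LinearMap.mem_ker, LinearMap.flip_apply]
            have h4 : R.exc q m c' ≤ LinearMap.ker (B z) := by
              refine iSup₂_le fun β hβ t ht => ?_
              rw [LinearMap.mem_ker]
              refine gen_orth (hR.F_gr m) hB ?_ (Submodule.mem_inf.1 hz).1
                (Submodule.mem_inf.1 ht).1 (Submodule.mem_inf.1 hz).2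
                (Submodule.mem_inf.1 ht).2
              intro h5
              have h6 := weil_mul (by omega) hα hβ
              rw [h5] at h6
              have h7 := weil_unique hq h6 (weil_natPow (by omega) m)
              omega
            exact LinearMap.mem_ker.1 (h4 hy.1)
          exact LinearMap.mem_ker.1 (h2 x.2.1)
      intro y hy
      have h8 : S ≤ LinearMap.ker (B x) := by
        calc S = ⨆ c, R.exc q m c ⊓ S := (iSup_exc_inf hR hS hF).symm
          _ ≤ LinearMap.ker (B x) := iSup_le fun c' y hy => LinearMap.mem_ker.2 (h1 c' y hy)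
      exact LinearMap.mem_ker.1 (h8 hy)
    have := LinearMap.finrank_le_finrank_of_injective hφ
    rwa [Subspace.dual_finrank_eq] at this
  apply le_antisymm (key c)
  have := key (-c)
  rwa [neg_neg] at this

/-- Surjectivity and equality of dimensions. -/
lemma centred_of_surj [IsAlgClosed Ω] (hR : R.IsCoh q)
    (hsurj : ∀ a : ℕ, ∀ y ∈ R.exc q m (-(a : ℤ)) ⊓ S, ∃ x ∈ R.exc q m a ⊓ S, (R.N ^ a) x = y)
    (hdim : ∀ c : ℤ, finrank Ω (R.exc q m c ⊓ S : Submodule Ω R.V) =
      finrank Ω (R.exc q m (-c) ⊓ S : Submodule Ω R.V)) :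
    Centred (fun c => R.exc q m c ⊓ S) R.N := by
  have := hR.finite
  intro a
  have hmap : R.exc q m (-(a : ℤ)) ⊓ S ≤ (R.exc q m a ⊓ S).map (R.N ^ a) := by
    intro y hy
    obtain ⟨x, hx, hxy⟩ := hsurj a y hy
    exact ⟨x, hx, hxy⟩
  set f := (R.N ^ a).domRestrict (R.exc q m a ⊓ S) with hf
  have hrange : LinearMap.range f = (R.exc q m a ⊓ S).map (R.N ^ a) := by
    rw [hf, LinearMap.range_domRestrict]
  have h1 := f.finrank_range_add_finrank_ker
  have h2 := Submodule.finrank_mono hmap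
  have h0 := hdim a
  rw [← hrange] at h2
  have h3 : finrank Ω (LinearMap.ker f) = 0 := by omega
  have h4 : LinearMap.ker f = ⊥ := Submodule.finrank_eq_zero.1 h3
  refine ⟨fun x hx h0 => ?_, fun y hy => hsurj a y hy⟩
  have h5 : (⟨x, hx⟩ : (R.exc q m a ⊓ S : Submodule Ω R.V)) ∈ LinearMap.ker f := by
    rw [LinearMap.mem_ker, hf, LinearMap.domRestrict_apply]
    exact h0
  rw [h4, Submodule.mem_bot] at h5
  exact congrArg Subtype.val h5

end

section

variable {K : Type u} [Field K] {Ω : Type w} [Field Ω] [CharZero Ω]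
  {T : Theory.{u, v, w} K Ω} {q : ℕ} {X : SmVar.{u} K} {C : MapClass T X}
  {μ : (T.H X).V →ₗ[Ω] (T.H X).V →ₗ[Ω] (T.H X).V} {m : ℕ}

lemma gen_induced {z : (T.H X).V} (h : Induced T q X C z) : z ∈ generated {z | Induced T q X C z} μ := by
  rw [generated, Submodule.mem_sInf]
  intro P hP
  exact hP.1 z h

lemma gen_cup {x y : (T.H X).V} (hx : x ∈ generated {z | Induced T q X C z} μ) (hy : y ∈ generated {z | Induced T q X C z} μ) :
    μ x y ∈ generated {z | Induced T q X C z} μ := by
  rw [generated, Submodule.mem_sInf] at *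
  intro P hP
  exact hP.2 x (hx P hP) y (hy P hP)

lemma gen_le {P : Submodule Ω (T.H X).V} (h1 : ∀ z, Induced T q X C z → z ∈ P)
    (h2 : ∀ x ∈ P, ∀ y ∈ P, μ x y ∈ P) : generated {z | Induced T q X C z} μ ≤ P := sInf_le ⟨h1, h2⟩

lemma F_gen (hμ : IsCup (T.H X) μ) :
    ∀ x ∈ generated {z | Induced T q X C z} μ, (T.H X).F x ∈ generated {z | Induced T q X C z} μ := by
  have h : generated {z | Induced T q X C z} μ ≤ (generated {z | Induced T q X C z} μ).comap (T.H X).F := by
    apply gen_le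
    · rintro z ⟨Y, j, n, c, S, φ, hC, hS, hφ, x, hx, rfl⟩
      rw [Submodule.mem_comap, hφ.frob x hx, LinearMap.smul_apply, map_smul]
      refine Submodule.smul_mem _ _ ?_
      exact gen_induced ⟨Y, j, n, c, S, φ, hC, hS, hφ, _, hS.frob x hx, rfl⟩
    · intro x hx y hy
      have h1 : (T.H X).F (μ x y) = μ ((T.H X).F x) ((T.H X).F y) := hμ.frob x y
      rw [Submodule.mem_comap] at *
      rw [h1]
      exact gen_cup hx hy
  exact h

lemma N_gen (hμ : IsCup (T.H X) μ) :
    ∀ x ∈ generated {z | Induced T q X C z} μ, (T.H X).N x ∈ generated {z | Induced T q X C z} μ := by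
  have h : generated {z | Induced T q X C z} μ ≤ (generated {z | Induced T q X C z} μ).comap (T.H X).N ⊓ generated {z | Induced T q X C z} μ := by
    apply gen_le
    · rintro z ⟨Y, j, n, c, S, φ, hC, hS, hφ, x, hx, rfl⟩
      refine ⟨?_, gen_induced ⟨Y, j, n, c, S, φ, hC, hS, hφ, x, hx, rfl⟩⟩
      change (T.H X).N (φ x) ∈ generated {z | Induced T q X C z} μ
      rw [hφ.mono x hx]
      exact gen_induced ⟨Y, j, n, c, S, φ, hC, hS, hφ, _, hS.mono x hx, rfl⟩
    · rintro x ⟨hx1, hx2⟩ y ⟨hy1, hy2⟩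
      refine ⟨?_, gen_cup hx2 hy2⟩
      have h1 : (T.H X).N (μ x y) = μ ((T.H X).N x) y + μ x ((T.H X).N y) := hμ.mono x y
      change (T.H X).N (μ x y) ∈ generated {z | Induced T q X C z} μ
      rw [h1]
      exact Submodule.add_mem _ (gen_cup hx1 hy2) (gen_cup hx2 hy1)
  exact fun x hx => (h hx).1

/-- The generated part is the sum of the spans of basic classes; surjectivity. -/
lemma part_surj [IsAlgClosed Ω] (hq : 1 < q) (hT : T.IsLocal q) (hμ : IsCup (T.H X) μ) (a : ℕ) :
    ∀ y ∈ (T.H X).exc q m (-(a : ℤ)) ⊓ part T q X C μ m,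
      ∃ x ∈ (T.H X).exc q m a ⊓ part T q X C μ m, ((T.H X).N ^ a) x = y := by
  have hR := hT.coh X
  set G := generated {z | Induced T q X C z} μ with hG
  set A : ℕ × ℤ → Submodule Ω (T.H X).V := fun p =>
    Submodule.span Ω {z | Basic (T.H X) q G p.1 p.2 z} with hA
  have hAle : ∀ p, A p ≤ (T.H X).exc q p.1 p.2 := by
    intro p
    rw [hA, Submodule.span_le]
    intro z hz
    exact (Submodule.mem_inf.1 (Basic.mem hz)).1
  have hgen : G ≤ ⨆ p, A p := by
    apply gen_le
    · rintro z ⟨Y, j, n, c, S, φ, hC, hS, hφ, x, hx, rfl⟩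
      have h1 := basic_of_induced hq (hT.coh Y) hS hφ (G := G)
        (fun x hx => gen_induced ⟨Y, j, n, c, S, φ, hC, hS, hφ, x, hx, rfl⟩) hx
      have h2 : (⨆ d : ℤ, Submodule.span Ω {z | Basic (T.H X) q G n d z}) ≤ ⨆ p, A p :=
        iSup_le fun d => le_iSup A (n, d)
      exact h2 h1
    · intro x hx y hy
      have h1 : (⨆ p, A p) ≤ (⨆ p, A p).comap (μ.flip y) := by
        refine iSup_le fun p => ?_
        rw [hA, Submodule.span_le]
        intro z hz
        have h2 : (⨆ p, A p) ≤ (⨆ p, A p).comap (μ z) := by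
          refine iSup_le fun p' => ?_
          rw [hA, Submodule.span_le]
          intro t ht
          have h3 : Basic (T.H X) q G (p.1 + p'.1) (p.2 + p'.2) (μ z t) :=
            Basic.mul (by omega) hμ (fun x hx y hy => gen_cup hx hy) hz ht
          exact Submodule.mem_iSup_of_mem (p.1 + p'.1, p.2 + p'.2) (Submodule.subset_span h3)
        exact h2 hy
      exact h1 hx
  intro y hy
  obtain ⟨hy1, hy2, hy3⟩ := hy
  have h1 : y ∈ A (m, -(a : ℤ)) := by
    refine mem_of_indep (E := fun p : ℕ × ℤ => (T.H X).exc q p.1 p.2)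
      (Coh.indep_exc hq hR) hAle (p := (m, -(a : ℤ))) hy1 (hgen hy2)
  have h2 : A (m, -(a : ℤ)) ≤ ((T.H X).exc q m a ⊓ part T q X C μ m).map ((T.H X).N ^ a) := by
    rw [hA, Submodule.span_le]
    intro z hz
    obtain ⟨x, hx, hxz⟩ := Basic.surj hz
    exact ⟨x, ⟨hx.1, hx.2, Coh.exc_le m _ hx.1⟩, hxz⟩
  exact h2 h1

end

end Pool.Agent.L7h94.MWG
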